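import Pool.Agent.Y477.IW.USThm
import Pool.Agent.Y477.IW.GP

/-!
Let the group `Γ` act on a group `N` and on a set `X` with finite point stabilizers, and let `e_S`
(`S ⊆ X`) be compatible retractions of `N` (for instance, `N` the graph product of copies of any
group over an invariant graph with vertex set `X`). For the genuine quadratic L-groups
`L(G) = L₀(A[G]; ε)`, not tensored with `ℚ`: the coinvariants of `L(N)` embed in `L(N ⋊ Γ)` modulo
`L(Γ)` up to the orders of the finite subgroups of `Γ`; for torsion-free `Γ` the parts of `L(N)`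
belonging to different orbits of finite subsets of `X` are independent in `L(N ⋊ Γ)`; and the kernel
of every natural transformation from a functor `H` to `L` is generated by the kernels for `Γ` and for
the parts of `N`.
-/

namespace Pool.Agent.Results.MP_98022b_gt.EquivariantRetractions

open Pool.Agent.Y483 Pool.Agent.Y477.IW CategoryTheory

theorem result (Γ X : Type) [Group Γ] [MulAction Γ X]
    (hst : ∀ v : X, Finite (MulAction.stabilizer Γ v)) :
    (∀ (A : Type) [Ring A] [StarRing A] (ε : ℤˣ) (N : Type) [Group N] (φ : Γ →* MulAut N)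
      (us : USupp φ X) (m : ℕ), (∀ K : Subgroup Γ, Finite K → Nat.card K ∣ m) →
      CoinvariantsEmbed (lgr A ε) φ m ∧
      ((∀ g : Γ, g ≠ 1 → ¬ IsOfFinOrder g) → OrbitsIndependent (lgr A ε) us) ∧
      KernelFormulaOver (lgr A ε) us m) ∧
    ∀ (P : Type) [Group P] (Λ : SimpleGraph X),
      (∀ (γ : Γ) (u v : X), Λ.Adj u v → Λ.Adj (γ • u) (γ • v)) → HasRetractions Γ P Λ :=
  ⟨fun _ _ _ ε _ _ _ us m hm => us_l us ε hst m hm,
    fun P _ Λ hΛ => hasRetractions Γ P Λ hΛ⟩

end Pool.Agent.Results.MP_98022b_gt.EquivariantRetractions
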