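import Pool.Agent.Y524L.Fin
import Pool.Agent.Y812.SS.Wr
import Pool.Agent.Y331.SS.Lim
import Pool.Agent.Y179.SS.Free
import Pool.Agent.Y430.SS.Lf
import Pool.Agent.Y708.SS.Aut
import Pool.Agent.Y584.LA.Am1
import Pool.Agent.Y255.LAM.AM2
import Pool.Agent.Y442.LA.Nuc
import Pool.Agent.Y442.LA.Phc
import Pool.Agent.Y468.LA.Lin
import Pool.Agent.Y510.LA.Lvl
import Pool.Agent.Y960.LA.En

/-!
# Groups generated by automorphisms of linear activity are Farrell–Jones groups

`C` is any class of groups with the closure properties `Closed C`, all of which are known for the
class of the groups that satisfy the K- and L-theoretic Farrell–Jones conjecture with coefficients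
and finite wreath products.

Outline of the proof. Let `B` be the group of the bounded automorphisms of `X^*` of finite type
(it is in `C`) and let `P` be the group of the directed automorphisms along the ray `d d d ...` with
steps in `B`: sequences in a subgroup of `B ≀ Sym X` that take only finitely many values. `P` is
a directed union of subgroups of finite powers, hence in `C`. The finitary elements of `P` form a
locally finite group `Q`, contained in `B`. The amalgamated product `Γ = B *_Q P` is in `C`, because
amalgams over finite groups which are detected by finite quotients embed in a wreath product of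
the free product with a finite symmetric group. The group `G` of the tree automorphisms of `B` and
all directed automorphisms is the image of `Γ`; the recursion lifts to `Γ`, and every element of `Γ`
is brought into a finite set of short words by the recursion, on which `Γ → G` is injective. So
`G` is a directed colimit of subgroups of iterated wreath products of `Γ`.
-/

set_option autoImplicit false

namespace Pool.Agent.Results.MP_98022b_gt.LinearActivity

open Pool.Agent.Y462.SS Pool.Agent.Y524L

/-- Let `C` be a class of groups with the closure properties `Closed C`. Let `G` be a group of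
automorphisms of a regular rooted tree `X^*`, `X` finite, generated by a set `S`, such that each
`s` in `S` is linear over bounded (off finitely many rays every word has a prefix at which the
section of `s` is one of finitely many bounded automorphisms) or is a finite-state automorphism of
linear activity. Then `G` is in `C`. -/
theorem result (C : ∀ (G : Type) [Group G], Prop) (hC : Closed C) (X : Type) (hX : Finite X)
    (G : Type) [Group G] (f : G →* Equiv.Perm (List X)) (hf : Function.Injective f)
    (S : Set G) (hS : Subgroup.closure S = ⊤) (hT : ∀ s ∈ S, IsTree (f s))
    (hB : ∀ s ∈ S, IsLin (f s) ∨ ((Sections (f s)).Finite ∧ LinActivity (f s))) : C G := by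
  exact lin_closed Pool.Agent.Y812.SS.t_wr Pool.Agent.Y430.SS.t_lf
    Pool.Agent.Y430.SS.t_pow Pool.Agent.Y179.SS.t_free
    (Pool.Agent.Y331.SS.t_lim Pool.Agent.Y812.SS.t_wr) Pool.Agent.Y430.SS.t_union
    (Pool.Agent.Y255.LAM.t_am2 Pool.Agent.Y584.LA.t_am1 Pool.Agent.Y812.SS.t_wr)
    Pool.Agent.Y442.LA.t_gen Pool.Agent.Y442.LA.t_phc Pool.Agent.Y442.LA.t_plf
    Pool.Agent.Y510.LA.t_lvl (Pool.Agent.Y960.LA.t_en Pool.Agent.Y442.LA.t_nuc)
    Pool.Agent.Y468.LA.t_lin C hC X hX G f hf S hS hT hB

end Pool.Agent.Results.MP_98022b_gt.LinearActivity
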