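import Pool.Agent.Y778.SG.Int

/-!
One two-generator torsion-free group, and one countable torsion-free simple group, which decide the
injectivity of the integral assembly maps for all finitely presented torsion-free groups.
-/

namespace Pool.Agent.Results.MP_98022b_gt.OneGroupIntegral

open Pool.Agent.Y778.SG

/-- For `tf` true (false) there is one torsion-free group (one group) `W`, generated by two elements
if `k` is true, countable and simple if `k` is false, which decides the injectivity of all natural
transformations from homology theories, for all finitely presented torsion-free groups (for all
finitely presented groups). -/
theorem result (tf k : Bool) :
    ∃ (W : Type) (_ : Group W), KindOf k W ∧ Cls tf W ∧ DecidesI tf W :=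
  main_int tf k

end Pool.Agent.Results.MP_98022b_gt.OneGroupIntegral
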